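import Pool.Agent.H620R2.GaugeQ.Q2

/-!
# Quantum Merlin-Arthur relative to an oracle
-/

set_option autoImplicit false

namespace Pool.Agent.H530R3.Qu

open Pool.Agent.NPC Pool.Agent.H620R2.Gauge

/-- `ψ` is a possible initial state of a circuit with `m` qubits for a witness of `w` qubits: a unit
vector in which all qubits from number `w` on are `0`. -/
def IsWit (w : ℕ) {m : ℕ} (ψ : (Fin m → Bool) → ℝ) : Prop :=
  ∑ s, ψ s ^ 2 = 1 ∧ ∀ s, ψ s ≠ 0 → ∀ i : Fin m, w ≤ i.val → s i = false

/-- The probability that the circuit `c` accepts if the initial state is `ψ`. -/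
noncomputable def accW (A : Oracle) (c : List Unit × List Gate)
    (ψ : (Fin c.1.length → Bool) → ℝ) : ℝ :=
  ∑ s : Fin c.1.length → Bool, if rd s 0 then circAct A c.2 ψ s ^ 2 else 0

/-- The language `L` is in `QMA` relative to `A`: there are quantum circuits `(C x).2`, computable
from `x` in polynomial time, such that for `x` in `L` some witness of `(C x).1` qubits is accepted
with probability at least `2/3`, and for `x` not in `L` all witnesses are accepted with probability
at most `1/3`. -/
def IsQMA (A : Oracle) (L : Set (List Bool)) : Prop :=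
  ∃ C : List Bool → List Unit × (List Unit × List Gate), PolyTime (fun x => bits (C x)) ∧
    ∀ x, (x ∈ L → ∃ ψ, IsWit (C x).1.length ψ ∧ 2 / 3 ≤ accW A (C x).2 ψ) ∧
      (x ∉ L → ∀ ψ, IsWit (C x).1.length ψ → accW A (C x).2 ψ ≤ 1 / 3)

end Pool.Agent.H530R3.Qu
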