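import Pool.Agent.H530R3.Qu.Null

/-!
# Finite variations of the oracle do not change `BQP` and `QMA`
-/

set_option autoImplicit false

namespace Pool.Agent.H530R3.Qu

open Pool.Agent.NPC
open Pool.Agent.H620R2.Gauge hiding IsNP par code

/-- the lists of controls whose tests sum up to the test whether the qubits `q` hold `z` -/
def ctl : List Bool → List ℕ → List (List ℕ)
  | [], q => if q = [] then [[]] else []
  | b :: z, q => match q with
    | [] => []
    | i :: q => if b = true then (ctl z q).map (fun U => i :: U) else
        ctl z q ++ (ctl z q).map (fun U => i :: U)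

variable {m : ℕ}

/-- the sum of the tests -/
def xall (l : List (List ℕ)) (s : Fin m → Bool) : Bool :=
  l.foldr (fun U b => xor (U.all (rd s)) b) false

theorem xall_append (l l' : List (List ℕ)) (s : Fin m → Bool) :
    xall (l ++ l') s = xor (xall l s) (xall l' s) := by
  induction l with
  | nil => simp [xall]
  | cons U l ih =>
    unfold xall at ih ⊢
    rw [List.cons_append, List.foldr_cons, ih, List.foldr_cons, Bool.xor_assoc]

theorem xall_map (l : List (List ℕ)) (i : ℕ) (s : Fin m → Bool) :
    xall (l.map (fun U => i :: U)) s = (rd s i && xall l s) := by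
  induction l with
  | nil => simp [xall]
  | cons U l ih =>
    unfold xall at ih ⊢
    rw [List.map_cons, List.foldr_cons, ih, List.foldr_cons, List.all_cons]
    cases rd s i <;> simp

theorem xall_ctl (z : List Bool) (q : List ℕ) (s : Fin m → Bool) :
    xall (ctl z q) s = decide (q.map (rd s) = z) := by
  induction z generalizing q with
  | nil =>
    cases q with
    | nil => simp [ctl, xall]
    | cons i q => simp [ctl, xall]
  | cons b z ih =>
    cases q with
    | nil => simp [ctl, xall]
    | cons i q =>
      simp only [ctl, List.map_cons, List.cons.injEq]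
      cases b with
      | true =>
        simp only [if_true]
        rw [xall_map, ih]
        cases rd s i <;> simp
      | false =>
        simp only [Bool.false_eq_true, if_false]
        rw [xall_append, xall_map, ih]
        cases rd s i <;> simp

theorem xall_flatMap (T : List (List Bool)) (hT : T.Nodup) (q : List ℕ) (s : Fin m → Bool) :
    xall (T.flatMap (fun z => ctl z q)) s = decide (q.map (rd s) ∈ T) := by
  induction T with
  | nil => simp [xall]
  | cons z T ih =>
    rw [List.nodup_cons] at hT
    rw [List.flatMap_cons, xall_append, xall_ctl, ih hT.2]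
    by_cases h1 : q.map (rd s) = z
    · have h2 : q.map (rd s) ∉ T := by rw [h1]; exact hT.1
      simp [h1, hT.1]
    · simp [h1]

theorem flipIf_comp (c c' : (Fin m → Bool) → Bool) (k : ℕ) (s : Fin m → Bool) :
    flipIf c k (flipIf c' k s) = flipIf (fun s => xor (c s) (c' s)) k s := by
  unfold flipIf
  by_cases h : k < m
  · simp only [h, dite_true, Function.update_idem, Function.update_self]
    congr 1
    rw [Bool.xor_assoc, Bool.xor_comm (c' _)]
  · simp only [h, dite_false]

theorem flipIf_false (k : ℕ) (s : Fin m → Bool) : flipIf (fun _ => false) k s = s := by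
  unfold flipIf
  by_cases h : k < m
  · simp [h]
  · simp [h]

theorem circAct_append (A : Oracle) (l l' : List Gate) (ψ : (Fin m → Bool) → ℝ) :
    circAct A (l ++ l') ψ = circAct A l' (circAct A l ψ) := by
  induction l generalizing ψ with
  | nil => rfl
  | cons g l ih => exact ih _

theorem circAct_tests (A : Oracle) (l : List (List ℕ)) (k : ℕ) (ψ : (Fin m → Bool) → ℝ) :
    circAct A (l.map (fun U => (Sum.inr (false, U, k) : Gate))) ψ =
      fun s => ψ (flipIf (fun s => xall l s) k s) := by
  induction l generalizing ψ with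
  | nil =>
    funext s
    have e : (fun s : Fin m → Bool => xall ([] : List (List ℕ)) s) = fun _ => false := rfl
    rw [e, flipIf_false]
    rfl
  | cons U l ih =>
    rw [List.map_cons]
    change circAct A (l.map (fun U => (Sum.inr (false, U, k) : Gate)))
      (gateAct A (Sum.inr (false, U, k)) ψ) = _
    rw [ih]
    funext s
    simp only [gateAct]
    rw [flipIf_comp]
    rfl

/-- the gates which simulate a gate for another oracle -/
def simG (T : List (List Bool)) (g : Gate) : List Gate :=
  match g with
  | Sum.inl i => [Sum.inl i]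
  | Sum.inr t => if t.1 = true then Sum.inr t ::
      (T.flatMap (fun z => ctl z t.2.1)).map (fun U => (Sum.inr (false, U, t.2.2) : Gate))
      else [Sum.inr t]

theorem simG_act {A B : Oracle} {T : List (List Bool)} (hT : T.Nodup)
    (h : ∀ y, A y = xor (B y) (decide (y ∈ T))) (g : Gate) (ψ : (Fin m → Bool) → ℝ) :
    circAct B (simG T g) ψ = gateAct A g ψ := by
  rcases g with i | ⟨b, q, k⟩
  · rfl
  · cases b with
    | false => rfl
    | true =>
      simp only [simG, if_true]
      change circAct B _ (gateAct B (Sum.inr (true, q, k)) ψ) = _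
      rw [circAct_tests]
      funext s
      simp only [gateAct]
      rw [flipIf_comp]
      congr 2
      funext s
      rw [xall_flatMap T hT, h]

theorem simL_act {A B : Oracle} {T : List (List Bool)} (hT : T.Nodup)
    (h : ∀ y, A y = xor (B y) (decide (y ∈ T))) (l : List Gate) (ψ : (Fin m → Bool) → ℝ) :
    circAct B (l.flatMap (simG T)) ψ = circAct A l ψ := by
  induction l generalizing ψ with
  | nil => rfl
  | cons g l ih =>
    rw [List.flatMap_cons, circAct_append, simG_act hT h]
    exact ih _

/-! ### the simulation is computable -/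

theorem p_ctl (z : List Bool) {α : Type} [TEnc α] {q : α → List ℕ} (hq : Poly q) :
    Poly (fun a => ctl z (q a)) := by
  induction z generalizing α with
  | nil =>
    exact Poly.ite (Poly.decide_eq hq (NPC.Poly.const _)) (NPC.Poly.const _) (NPC.Poly.const _)
  | cons b z ih =>
    have h2 : Poly (fun p : α × ℕ × List ℕ => ctl z p.2.2) := ih (Poly.snd (Poly.snd Poly.id))
    have h3 : Poly (fun p : α × ℕ × List ℕ => (ctl z p.2.2).map (fun U => p.2.1 :: U)) :=
      NPC.Poly.map (F := fun (p : α × ℕ × List ℕ) (U : List ℕ) => p.2.1 :: U) h2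
        (Poly.cons (Poly.fst (Poly.snd (Poly.fst Poly.id))) (Poly.snd Poly.id))
    have h1 := Poly.listCases (g := fun _ : α => ([] : List (List ℕ)))
      (h := fun (_ : α) (i : ℕ) (q : List ℕ) => if b = true then (ctl z q).map (fun U => i :: U)
        else ctl z q ++ (ctl z q).map (fun U => i :: U)) hq (NPC.Poly.const _)
      (by
        cases b with
        | true => exact h3
        | false => exact Poly.append h2 h3)
    refine h1.congr fun a => ?_
    cases q a <;> rfl

theorem p_ctls (T : List (List Bool)) {α : Type} [TEnc α] {q : α → List ℕ} (hq : Poly q) :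
    Poly (fun a => T.flatMap (fun z => ctl z (q a))) := by
  induction T with
  | nil => exact NPC.Poly.const _
  | cons z T ih =>
    refine (Poly.append (p_ctl z hq) ih).congr fun a => ?_
    rw [List.flatMap_cons]

theorem p_simG (T : List (List Bool)) {α : Type} [TEnc α] {g : α → Gate} (hg : Poly g) :
    Poly (fun a => simG T (g a)) := by
  have h0 : Poly (fun p : α × (Bool × List ℕ × ℕ) => p.2) := Poly.snd Poly.id
  have h1 : Poly (fun p : α × (Bool × List ℕ × ℕ) =>
      (T.flatMap (fun z => ctl z p.2.2.1)).map (fun U => (Sum.inr (false, U, p.2.2.2) : Gate))) :=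
    NPC.Poly.map (F := fun (p : α × (Bool × List ℕ × ℕ)) (U : List ℕ) =>
      (Sum.inr (false, U, p.2.2.2) : Gate)) (p_ctls T (Poly.fst (Poly.snd h0)))
      (Poly.inr (Poly.pair (NPC.Poly.const false) (Poly.pair (Poly.snd Poly.id)
        (Poly.snd (Poly.snd (h0.comp (Poly.fst Poly.id)))))))
  refine (Poly.sumCases (g := fun (_ : α) (i : ℕ) => [(Sum.inl i : Gate)])
    (h := fun (_ : α) (t : Bool × List ℕ × ℕ) => if t.1 = true then (Sum.inr t : Gate) ::
      (T.flatMap (fun z => ctl z t.2.1)).map (fun U => (Sum.inr (false, U, t.2.2) : Gate))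
      else [Sum.inr t]) hg ?_ ?_).congr fun a => ?_
  · exact Poly.cons (Poly.inl (Poly.snd Poly.id)) (NPC.Poly.const [])
  · exact Poly.ite (Poly.decide_eq (Poly.fst h0) (NPC.Poly.const true))
      (Poly.cons (Poly.inr h0) h1) (Poly.cons (Poly.inr h0) (NPC.Poly.const []))
  · unfold simG
    cases g a <;> rfl

theorem poly_of_bits {β : Type} [TEnc β] [TDec β] [Inhabited β] {C : List Bool → β}
    (hC : PolyTime (fun x => bits (C x))) : Poly C := by
  have h1 : Poly (fun x => unbits β (bits (C x))) :=
    poly_unbits.comp (H622R2.poly_of_polyTime hC)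
  refine (Poly.optCases (o := fun x => unbits β (bits (C x))) (g := fun _ => (default : β))
    (h := fun _ c => c) h1 (NPC.Poly.const _) (Poly.snd Poly.id)).congr fun x => ?_
  rw [unbits_bits]

theorem exists_list {A B : Oracle} (h : {x : List Bool | A x ≠ B x}.Finite) :
    ∃ T : List (List Bool), T.Nodup ∧ ∀ y, A y = xor (B y) (decide (y ∈ T)) := by
  classical
  obtain ⟨T, hT⟩ := h.exists_finset_coe
  refine ⟨T.toList, T.nodup_toList, fun y => ?_⟩
  have hy : y ∈ T.toList ↔ A y ≠ B y := by
    rw [Finset.mem_toList, ← Finset.mem_coe, hT]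
    rfl
  by_cases h1 : y ∈ T.toList
  · have h2 := hy.1 h1
    rw [decide_eq_true h1]
    revert h2
    cases A y <;> cases B y <;> simp
  · rw [decide_eq_false h1, Bool.xor_false]
    by_contra h3
    exact h1 (hy.2 h3)

theorem isBQP_of_finite {A B : Oracle} (h : {x : List Bool | A x ≠ B x}.Finite)
    {L : Set (List Bool)} (hL : IsBQP A L) : IsBQP B L := by
  obtain ⟨T, hT, hT'⟩ := exists_list h
  obtain ⟨C, hC, hC'⟩ := hL
  have hp := poly_of_bits hC
  refine ⟨fun x => ((C x).1, (C x).2.flatMap (simG T)), polyTime_bits (Poly.pair (Poly.fst hp)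
    (Poly.flatMap (F := fun (_ : List Bool) (g : Gate) => simG T g) (Poly.snd hp)
      (p_simG T (Poly.snd Poly.id)))), fun x => ?_⟩
  have e : accProb B ((C x).1, (C x).2.flatMap (simG T)) = accProb A (C x) := by
    unfold accProb
    simp only [simL_act hT hT']
  rw [e]
  exact hC' x

theorem isQMA_of_finite {A B : Oracle} (h : {x : List Bool | A x ≠ B x}.Finite)
    {L : Set (List Bool)} (hL : IsQMA A L) : IsQMA B L := by
  obtain ⟨T, hT, hT'⟩ := exists_list h
  obtain ⟨C, hC, hC'⟩ := hL
  have hp := poly_of_bits hC
  refine ⟨fun x => ((C x).1, ((C x).2.1, (C x).2.2.flatMap (simG T))),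
    polyTime_bits (Poly.pair (Poly.fst hp) (Poly.pair (Poly.fst (Poly.snd hp))
    (Poly.flatMap (F := fun (_ : List Bool) (g : Gate) => simG T g) (Poly.snd (Poly.snd hp))
      (p_simG T (Poly.snd Poly.id))))), fun x => ?_⟩
  have e : ∀ ψ, accW B ((C x).2.1, (C x).2.2.flatMap (simG T)) ψ = accW A (C x).2 ψ := by
    intro ψ
    unfold accW
    simp only [simL_act hT hT']
  simp only [e]
  exact hC' x

theorem finite_symm {A B : Oracle} (h : {x : List Bool | A x ≠ B x}.Finite) :
    {x : List Bool | B x ≠ A x}.Finite :=
  h.subset fun x hx => (show A x ≠ B x from fun e => hx e.symm)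

theorem isBQP_iff_of_finite {A B : Oracle} (h : {x : List Bool | A x ≠ B x}.Finite)
    {L : Set (List Bool)} : IsBQP A L ↔ IsBQP B L :=
  ⟨isBQP_of_finite h, isBQP_of_finite (finite_symm h)⟩

theorem isQMA_iff_of_finite {A B : Oracle} (h : {x : List Bool | A x ≠ B x}.Finite)
    {L : Set (List Bool)} : IsQMA A L ↔ IsQMA B L :=
  ⟨isQMA_of_finite h, isQMA_of_finite (finite_symm h)⟩

end Pool.Agent.H530R3.Qu
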