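import Pool.Agent.H530R3.Qu.FinVar

/-!
# The exact threshold for quantum classes
-/

set_option autoImplicit false

namespace Pool.Agent.H530R3.Qu

open Pool.Agent.NPC MeasureTheory Filter
open Pool.Agent.H628R3.RO (IsNP p_out ofL IsFP)
open Pool.Agent.H620R2.Gauge hiding IsNP par code IsFP
open Pool.Agent.H530R3.Thr hiding InP inNP_of_inP

/-- The class `BQP`: bounded-error quantum polynomial time, with the empty oracle. -/
def InBQP (L : Set (List Bool)) : Prop := IsBQP (fun _ => false) L

theorem inNP_of_empty {L : Set (List Bool)} (h : IsNP (fun _ => false) L) : InNP L := by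
  obtain ⟨V, q, ⟨M, hM⟩, h⟩ := h
  have h1 : Poly (fun x : List Bool => if M.out (ofL []) x = some [true] then [true] else
      ([] : List Bool)) :=
    Poly.ite (Poly.decide_eq (p_out M (S := fun _ => []) (NPC.Poly.const []) Poly.id)
      (NPC.Poly.const _)) (NPC.Poly.const _) (NPC.Poly.const _)
  refine ⟨_, q, H622R2.polyTime_of_poly_list h1, fun x => ?_⟩
  have e : (fun _ => false : Oracle) = ofL [] := by
    funext x
    simp [ofL]
  rw [h x]
  refine exists_congr fun w => and_congr_right fun _ => ?_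
  rw [← e, hM]
  by_cases h2 : V (pairBits x w) = [true]
  · simp [h2]
  · simp [h2]

theorem inNP_iff_empty {L : Set (List Bool)} : InNP L ↔ IsNP (fun _ => false) L :=
  ⟨isNP_of_inNP _, inNP_of_empty⟩

variable (p : ℕ → unitInterval)

theorem convergentQ (h : Summable (lam p)) :
    ∀ᵐ A ∂(biasedOracle p), {x : List Bool | A x ≠ major p x}.Finite ∧
      ∀ L : Set (List Bool), (IsNP A L ↔ IsNP (major p) L) ∧ (IsBQP A L ↔ IsBQP (major p) L) ∧
        (IsQMA A L ↔ IsQMA (major p) L) := by
  filter_upwards [ae_finite p h] with A hA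
  exact ⟨hA, fun L => ⟨isNP_iff_of_finite hA, isBQP_iff_of_finite hA, isQMA_iff_of_finite hA⟩⟩

theorem convergent_iff (hp : ∀ n, (p n : ℝ) ≤ 1 / 2) (h : Summable (lam p)) :
    ∀ᵐ A ∂(biasedOracle p), (∀ L : Set (List Bool), IsNP A L → IsBQP A L) ↔
      ∀ L : Set (List Bool), InNP L → InBQP L := by
  filter_upwards [convergentQ p h] with A hA
  refine forall_congr' fun L => ?_
  rw [(hA.2 L).1, (hA.2 L).2.1, major_eq_empty p hp, inNP_iff_empty]
  rfl

theorem not_ae (h : ¬ Summable (lam p)) :
    ∀ᵐ A ∂(biasedOracle p), ¬ ∀ L : Set (List Bool), IsNP A L → IsBQP A L := by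
  filter_upwards [divergentQ p h] with A hA hAA
  obtain ⟨L, h1, h2, _⟩ := hA
  exact h2 (hAA L h1)

theorem bqp_iff : (∀ L : Set (List Bool), InNP L → InBQP L) ↔
    ∀ p : ℕ → unitInterval, (∀ n, (p n : ℝ) ≤ 1 / 2) →
      ((∀ᵐ A ∂(biasedOracle p), ∀ L : Set (List Bool), IsNP A L → IsBQP A L) ↔
        Summable (lam p)) := by
  constructor
  · intro h p hp
    constructor
    · intro h1
      by_contra h2
      obtain ⟨A, hA, hA'⟩ := (h1.and (not_ae p h2)).exists
      exact hA' hA
    · intro hs
      filter_upwards [convergent_iff p hp hs] with A hA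
      exact hA.2 h
  · intro h
    have h0 : ∀ n, (zeroDensity n : ℝ) ≤ 1 / 2 := fun n => by simp [zeroDensity]
    have h1 := (h zeroDensity h0).2 summable_zeroDensity
    obtain ⟨A, hA, hA'⟩ := (h1.and (convergent_iff zeroDensity h0 summable_zeroDensity)).exists
    exact hA'.1 hA

theorem bqp_iff' : (∀ L : Set (List Bool), InNP L → InBQP L) ↔
    ∃ p : ℕ → unitInterval, (∀ n, (p n : ℝ) ≤ 1 / 2) ∧
      0 < biasedOracle p {A | ∀ L : Set (List Bool), IsNP A L → IsBQP A L} := by
  constructor
  · intro h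
    have h0 : ∀ n, (zeroDensity n : ℝ) ≤ 1 / 2 := fun n => by simp [zeroDensity]
    refine ⟨zeroDensity, h0, ?_⟩
    rw [pos_iff_ne_zero]
    intro h2
    have h3 : ∀ᵐ A ∂(biasedOracle zeroDensity),
        ¬ ∀ L : Set (List Bool), IsNP A L → IsBQP A L := by
      rw [ae_iff]
      simpa only [not_not] using h2
    obtain ⟨A, hA, hA'⟩ := ((convergent_iff zeroDensity h0 summable_zeroDensity).and h3).exists
    exact hA' (hA.2 h)
  · rintro ⟨p, hp, hpos⟩
    have hs : Summable (lam p) := by
      by_contra h1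
      have h2 := not_ae p h1
      rw [ae_iff] at h2
      simp only [not_not] at h2
      rw [h2] at hpos
      exact lt_irrefl _ hpos
    by_contra hcon
    have h1 : ∀ᵐ A ∂(biasedOracle p), ¬ ∀ L : Set (List Bool), IsNP A L → IsBQP A L := by
      filter_upwards [convergent_iff p hp hs] with A hA
      exact fun h2 => hcon (hA.1 h2)
    rw [ae_iff] at h1
    simp only [not_not] at h1
    rw [h1] at hpos
    exact lt_irrefl _ hpos

end Pool.Agent.H530R3.Qu
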