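import Pool.Agent.H530R3.Thr.Params

/-!
# The divergent case for abstract verifiers which are sensitive to few blocks only
-/

set_option autoImplicit false

namespace Pool.Agent.H530R3.Qu

open Pool.Agent.NPC Pool.Agent.H628R3.RO MeasureTheory Filter
open Pool.Agent.H530R3.Thr

/-- An abstract verifier: `Hi A u` says that it accepts `u` clearly, `Lo A u` that it accepts `u`
perhaps; it looks only at strings of length at most `lb u`, and if it accepts `u` clearly then
at most `Qs u` of disjoint blocks can be changed such that it does not accept any more. -/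
structure Ver where
  Hi : Oracle → List Bool → Prop
  Lo : Oracle → List Bool → Prop
  lb : List Bool → ℕ
  Qs : List Bool → ℕ
  locHi : ∀ u A A', (∀ x : List Bool, x.length ≤ lb u → A x = A' x) → (Hi A u ↔ Hi A' u)
  locLo : ∀ u A A', (∀ x : List Bool, x.length ≤ lb u → A x = A' x) → (Lo A u ↔ Lo A' u)
  sens : ∀ u A, Hi A u → ∀ (B F : Finset (List Bool)) (J : List Bool → Finset (List Bool)),
    (∀ w ∈ B, ∀ w' ∈ B, w ≠ w' → Disjoint (J w) (J w')) →
    (∀ w ∈ F, w ∈ B ∧ ∃ A' : Oracle, (∀ x ∉ J w, A' x = A x) ∧ ¬ Lo A' u) → F.card ≤ Qs u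

/-- the verifier is right about the complement of the test language on `u` -/
def Ver.Good (M : Ver) (u : List Bool) : Set Oracle :=
  {A | (u ∉ Lang A → M.Hi A u) ∧ (u ∈ Lang A → ¬ M.Lo A u)}

theorem Ver.good_loc (M : Ver) (P : Par) (n : ℕ) :
    Loc {x | x.length ≤ max (M.lb (P.u n)) n} (M.Good (P.u n)) := by
  intro A A' h
  have h1 : P.u n ∈ Lang A ↔ P.u n ∈ Lang A' := by
    unfold Par.u
    rw [mem_Lang_code, mem_Lang_code]
    refine exists_congr fun w => and_congr_right fun hw => ?_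
    unfold Full
    simp only [Set.mem_ofPred_eq]
    refine forall₂_congr fun x hx => ?_
    have h2 : x.length = n := by
      rw [length_of_mem_blk hx, hw, P.sum_eq]
    rw [h x (by
      simp only [Set.mem_ofPred_eq]
      rw [h2]
      exact le_max_right _ _)]
  have h2 := M.locHi (P.u n) A A' fun x hx => h x (hx.trans (le_max_left _ _))
  have h3 := M.locLo (P.u n) A A' fun x hx => h x (hx.trans (le_max_left _ _))
  unfold Ver.Good
  simp only [Set.mem_ofPred_eq]
  rw [h1, h2, h3]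

variable {p : ℕ → unitInterval}

theorem Ver.step (M : Ver) (P : Par) (n0 : ℕ)
    (hn0 : ∀ n ≥ n0, 2 * M.Qs (P.u n) ≤ 2 ^ P.m n)
    (W : Finset ℕ) (hW : ∀ n ∈ W, n0 ≤ n) (h1 : 1 / 4 ≤ ∑ n ∈ W, P.mu p n)
    (h2 : ∑ n ∈ W, P.mu p n ≤ 1 / 2) :
    ∃ L : ℕ, ∀ L0 : ℕ, (∀ n ∈ W, L0 < n) → ∀ S : Set Oracle, Loc {x | x.length ≤ L0} S →
      Loc {x | x.length ≤ L0 + L} (S ∩ {A | ∀ n ∈ W, A ∈ M.Good (P.u n)}) ∧
      pr p (S ∩ {A | ∀ n ∈ W, A ∈ M.Good (P.u n)}) ≤ 17 / 18 * pr p S := by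
  classical
  refine ⟨∑ n ∈ W, max (M.lb (P.u n)) n, fun L0 hL0 S hS => ?_⟩
  set L := L0 + ∑ n ∈ W, max (M.lb (P.u n)) n with hL
  have hLn : ∀ n ∈ W, max (M.lb (P.u n)) n ≤ L := by
    intro n hn
    have := Finset.single_le_sum (f := fun n => max (M.lb (P.u n)) n)
      (fun _ _ => Nat.zero_le _) hn
    omega
  set K : Set (List Bool) := {x | x.length ≤ L} with hK
  have hKf : K.Finite := List.finite_length_le Bool L
  set X : Set Oracle := S ∩ {A | ∀ n ∈ W, A ∈ M.Good (P.u n)} with hX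
  have hXK : Loc K X := by
    refine loc_inter' (loc_mono' (fun x hx => ?_) hS) ?_
    · simp only [Set.mem_ofPred_eq] at hx
      simp only [hK, Set.mem_ofPred_eq]
      omega
    · intro A A' h
      refine forall₂_congr fun n hn => M.good_loc P n A A' fun x hx => h x ?_
      exact hx.trans (hLn n hn)
  refine ⟨hXK, ?_⟩
  set B : Finset ((_ : ℕ) × List Bool) := W.sigma (fun n => words (P.m n)) with hB
  set J : ((_ : ℕ) × List Bool) → Finset (List Bool) := fun i => blk (P.j i.1) (P.r i.1) i.2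
    with hJ
  set c : ((_ : ℕ) × List Bool) → Bool := fun i => P.b i.1 with hc
  have hmemB : ∀ i, i ∈ B ↔ i.1 ∈ W ∧ i.2.length = P.m i.1 := by
    intro i
    rw [hB, Finset.mem_sigma, mem_words]
  have hlen : ∀ i ∈ B, ∀ x ∈ J i, x.length = i.1 := by
    intro i hi x hx
    rw [length_of_mem_blk hx, ((hmemB i).1 hi).2, P.sum_eq]
  have hdisj : ∀ i ∈ B, ∀ l ∈ B, i ≠ l → Disjoint (J i) (J l) := by
    rintro ⟨n, w⟩ hi ⟨n', w'⟩ hl hne
    by_cases hn : n = n'
    · subst hn
      have hw : w ≠ w' := fun h => hne (by rw [h])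
      refine disjoint_blk ?_ hw
      rw [((hmemB _).1 hi).2, ((hmemB _).1 hl).2]
    · rw [Finset.disjoint_left]
      intro x hx hx'
      exact hn ((hlen _ hi x hx).symm.trans (hlen _ hl x hx'))
  set E : ((_ : ℕ) × List Bool) → Set Oracle := fun i =>
    {A | A ∈ X ∧ (∀ l ∈ B, A ∉ Full (J l) (c l)) ∧ ∀ A' : Oracle, (∀ x ∉ J i, A' x = A x) →
      M.Lo A' (P.u i.1)} with hE
  have hJK : ∀ i ∈ B, ∀ x ∈ J i, x ∈ K ∧ x ∉ {x : List Bool | x.length ≤ L0} := by
    intro i hi x hx
    have h3 := hlen i hi x hx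
    have h4 := hLn i.1 ((hmemB i).1 hi).1
    have h5 := hL0 i.1 ((hmemB i).1 hi).1
    have h6 := le_max_right (M.lb (P.u i.1)) i.1
    simp only [hK, Set.mem_ofPred_eq]
    omega
  refine core B J c hdisj K {x : List Bool | x.length ≤ L0} hKf ?_ hJK S X hS
    hXK Set.inter_subset_left E ?_ ?_ ?_ ?_ ?_
  · intro x hx
    simp only [Set.mem_ofPred_eq] at hx
    simp only [hK, Set.mem_ofPred_eq]
    omega
  · -- locality of `E`
    intro i hi
    have key : ∀ A A2 : Oracle, (∀ x ∈ K, A x = A2 x) → A ∈ E i → A2 ∈ E i := by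
      rintro A A2 h ⟨h3, h4, h5⟩
      refine ⟨(hXK A A2 h).1 h3, fun l hl h6 => h4 l hl ?_, ?_⟩
      · intro x hx
        rw [h x (hJK l hl x hx).1]
        exact h6 x hx
      · intro A' hA'
        have h7 := h5 (fun x => if x ∈ J i then A' x else A x) (fun x hx => by simp [hx])
        refine (M.locLo (P.u i.1) _ _ fun x hx => ?_).1 h7
        by_cases hxJ : x ∈ J i
        · simp [hxJ]
        · simp only [hxJ, if_false]
          rw [hA' x hxJ]
          refine h x ?_
          exact (hx.trans (le_max_left _ _)).trans (hLn i.1 ((hmemB i).1 hi).1)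
    exact fun A A2 h => ⟨key A A2 h, key A2 A fun x hx => (h x hx).symm⟩
  · rintro i hi A ⟨h3, h4, _⟩
    exact ⟨h3, h4⟩
  · -- making the block full leaves `X`
    rintro i hi A ⟨h3, h4, h5⟩ A' hA' hfull hAX
    have h6 := h5 A' hA'
    have h7 : P.u i.1 ∈ Lang A' := by
      unfold Par.u
      rw [mem_Lang_code]
      exact ⟨i.2, ((hmemB i).1 hi).2, hfull⟩
    exact (hAX.2 i.1 ((hmemB i).1 hi).1).2 h7 h6
  · -- the sum of the probabilities
    have h3 : ∑ i ∈ B, pr p (Full (J i) (c i)) = ∑ n ∈ W, P.mu p n := by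
      rw [hB, Finset.sum_sigma]
      refine Finset.sum_congr rfl fun n hn => ?_
      have h4 : ∀ w ∈ words (P.m n), pr p (Full (J ⟨n, w⟩) (c ⟨n, w⟩)) =
          qq p n (P.b n) ^ P.j n := by
        intro w hw
        rw [pr_full (n := n) (hlen ⟨n, w⟩ ((hmemB _).2 ⟨hn, mem_words.1 hw⟩))]
        simp only [hJ, hc, card_blk]
      rw [Finset.sum_congr rfl h4, Finset.sum_const, card_words, nsmul_eq_mul]
      unfold Par.mu
      push_cast
      rfl
    rw [h3]
    exact h2
  · -- the count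
    intro A hA hno
    have h3 : ∀ n ∈ W, P.mu p n / 2 ≤ ∑ w ∈ words (P.m n),
        (E ⟨n, w⟩).indicator (fun _ => pr p (Full (J ⟨n, w⟩) (c ⟨n, w⟩))) A := by
      intro n hn
      have hπ : ∀ w ∈ words (P.m n), pr p (Full (J ⟨n, w⟩) (c ⟨n, w⟩)) =
          qq p n (P.b n) ^ P.j n := by
        intro w hw
        rw [pr_full (n := n) (hlen ⟨n, w⟩ ((hmemB _).2 ⟨hn, mem_words.1 hw⟩))]
        simp only [hJ, hc, card_blk]
      have hnot : P.u n ∉ Lang A := by
        unfold Par.u
        rw [mem_Lang_code]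
        rintro ⟨w, hw, hfull⟩
        exact hno ⟨n, w⟩ ((hmemB _).2 ⟨hn, hw⟩) hfull
      have hacc := (hA.2 n hn).1 hnot
      set bad := (words (P.m n)).filter fun w => ∃ A' : Oracle,
        (∀ x ∉ blk (P.j n) (P.r n) w, A' x = A x) ∧ ¬ M.Lo A' (P.u n) with hbad
      have h4 : bad.card ≤ M.Qs (P.u n) := by
        refine M.sens (P.u n) A hacc (words (P.m n)) bad (fun w => blk (P.j n) (P.r n) w)
          (fun w hw w' hw' hne => disjoint_blk ((mem_words.1 hw).trans (mem_words.1 hw').symm) hne)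
          fun w hw => ?_
        rw [hbad, Finset.mem_filter] at hw
        exact hw
      have h5 : ∀ w ∈ words (P.m n) \ bad, A ∈ E ⟨n, w⟩ := by
        intro w hw
        rw [Finset.mem_sdiff] at hw
        refine ⟨hA, hno, fun A' hA' => ?_⟩
        by_contra hcon
        apply hw.2
        rw [hbad, Finset.mem_filter]
        exact ⟨hw.1, A', hA', hcon⟩
      have h6 : ∑ w ∈ words (P.m n) \ bad,
          (E ⟨n, w⟩).indicator (fun _ => pr p (Full (J ⟨n, w⟩) (c ⟨n, w⟩))) A ≤
          ∑ w ∈ words (P.m n),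
          (E ⟨n, w⟩).indicator (fun _ => pr p (Full (J ⟨n, w⟩) (c ⟨n, w⟩))) A := by
        refine Finset.sum_le_sum_of_subset_of_nonneg Finset.sdiff_subset ?_
        intro w _ _
        exact Set.indicator_nonneg (fun _ _ => pr_nonneg _) _
      refine le_trans ?_ h6
      have h7 : ∑ w ∈ words (P.m n) \ bad,
          (E ⟨n, w⟩).indicator (fun _ => pr p (Full (J ⟨n, w⟩) (c ⟨n, w⟩))) A =
          ((words (P.m n) \ bad).card : ℝ) * qq p n (P.b n) ^ P.j n := by
        rw [← nsmul_eq_mul, ← Finset.sum_const]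
        refine Finset.sum_congr rfl fun w hw => ?_
        rw [Set.indicator_of_mem (h5 w hw), hπ w (Finset.mem_sdiff.1 hw).1]
      rw [h7]
      have h8 : 2 ^ P.m n ≤ 2 * (words (P.m n) \ bad).card := by
        have h9 : (words (P.m n) \ bad).card = (words (P.m n)).card - bad.card :=
          Finset.card_sdiff_of_subset (Finset.filter_subset _ _)
        have h10 := hn0 n (hW n hn)
        rw [h9, card_words]
        omega
      have h9 : (2 : ℝ) ^ P.m n ≤ 2 * ((words (P.m n) \ bad).card : ℝ) := by exact_mod_cast h8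
      have h10 : 0 ≤ qq p n (P.b n) ^ P.j n := pow_nonneg (qq_nonneg _ _) _
      unfold Par.mu
      nlinarith
    have h4 : ∑ i ∈ B, (E i).indicator (fun _ => pr p (Full (J i) (c i))) A =
        ∑ n ∈ W, ∑ w ∈ words (P.m n),
          (E ⟨n, w⟩).indicator (fun _ => pr p (Full (J ⟨n, w⟩) (c ⟨n, w⟩))) A := by
      rw [hB, Finset.sum_sigma]
    rw [h4]
    calc (1 / 8 : ℝ) ≤ ∑ n ∈ W, P.mu p n / 2 := by
          rw [← Finset.sum_div]
          linarith
      _ ≤ _ := Finset.sum_le_sum h3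

variable (p)

theorem Ver.null (h : ¬ Summable (lam p)) (M : Ver) (q : Polynomial ℕ)
    (hq : ∀ u, M.Qs u ≤ q.eval u.length) :
    biasedOracle p {A | ∀ u, A ∈ M.Good u} = 0 := by
  obtain ⟨n0, hn12, hn0⟩ : ∃ n0 : ℕ, 12 ≤ n0 ∧ ∀ n ≥ n0,
      2 * M.Qs ((par p).u n) ≤ 2 ^ (par p).m n := by
    obtain ⟨N, hN⟩ := C2.poly_le (q.comp (8 * Polynomial.X + 10)) 2
    refine ⟨4 * N + 12, by omega, fun n hn => ?_⟩
    have h1 := (par_spec p (n := n) (by omega)).1
    have h2 := hN ((par p).m n) (by omega)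
    refine le_trans ?_ h2
    refine Nat.mul_le_mul_left _ ?_
    rw [Polynomial.eval_comp]
    refine (hq _).trans (eval_mono' q ?_)
    have := (par p).length_u n
    simp only [Polynomial.eval_add, Polynomial.eval_mul, Polynomial.eval_X, Polynomial.eval_ofNat]
    omega
  have key : ∀ k : ℕ, ∃ (S : Set Oracle) (L : ℕ), Loc {x | x.length ≤ L} S ∧
      {A | ∀ u, A ∈ M.Good u} ⊆ S ∧ pr p S ≤ (17 / 18) ^ k := by
    intro k
    induction k with
    | zero =>
      refine ⟨Set.univ, 0, fun _ _ _ => by simp, Set.subset_univ _, ?_⟩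
      rw [pow_zero]
      exact pr_le_one _
    | succ k ih =>
      obtain ⟨S, L0, h1, h2, h3⟩ := ih
      obtain ⟨W, h4, h5, h6⟩ := window (f := (par p).mu p) ((par p).mu_nonneg p)
        (not_summable_mu p h) (max n0 (L0 + 1))
        (fun n hn => (par_spec p (by have := (le_max_left _ _).trans hn; omega)).2.1)
      obtain ⟨L, hL⟩ := M.step (par p) n0 hn0 W (fun n hn => (le_max_left _ _).trans (h4 n hn))
        h5 h6
      obtain ⟨h7, h8⟩ := hL L0 (fun n hn => (le_max_right n0 (L0 + 1)).trans (h4 n hn)) S h1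
      refine ⟨_, _, h7, fun A hA => ⟨h2 hA, fun n _ => hA _⟩, h8.trans ?_⟩
      rw [pow_succ]
      linarith
  have h1 : ∀ k : ℕ, biasedOracle p {A | ∀ u, A ∈ M.Good u} ≤ ENNReal.ofReal ((17 / 18) ^ k) := by
    intro k
    obtain ⟨S, L, _, h2, h3⟩ := key k
    calc biasedOracle p {A | ∀ u, A ∈ M.Good u} ≤ biasedOracle p S := measure_mono h2
      _ = ENNReal.ofReal (pr p S) := by
        unfold pr
        rw [ofReal_measureReal]
      _ ≤ _ := ENNReal.ofReal_le_ofReal h3
  have h2 : Tendsto (fun k : ℕ => ENNReal.ofReal ((17 / 18 : ℝ) ^ k)) atTop (nhds 0) := by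
    rw [← ENNReal.ofReal_zero]
    exact ENNReal.tendsto_ofReal
      (tendsto_pow_atTop_nhds_zero_of_lt_one (by norm_num) (by norm_num))
  exact le_antisymm (ge_of_tendsto' h2 h1) bot_le

end Pool.Agent.H530R3.Qu
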