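import Pool.Agent.H530R3.Qu.Defs

/-!
# The hybrid argument for disjoint sets of strings
-/

set_option autoImplicit false

namespace Pool.Agent.H530R3.Qu

open Pool.Agent.NPC Pool.Agent.H620R2.Gauge Pool.Agent.H620R2.Gauge.Q2 Finset

variable {m : ℕ}

open Classical in
/-- the weight of the questions of one gate about the strings in `J` -/
noncomputable def gw (J : Set (List Bool)) : Gate → ((Fin m → Bool) → ℝ) → ℝ
  | Sum.inr (true, q, k), ψ =>
      if h : k < m then ∑ s, if ques q ⟨k, h⟩ s ∈ J then ψ s ^ 2 else 0 else 0
  | _, _ => 0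

theorem gw_nonneg (J : Set (List Bool)) (g : Gate) (ψ : (Fin m → Bool) → ℝ) : 0 ≤ gw J g ψ := by
  classical
  rcases g with i | ⟨b, q, k⟩
  · exact le_rfl
  · cases b with
    | false => exact le_rfl
    | true =>
        simp only [gw]
        split_ifs
        · exact sum_nonneg fun s _ => by split_ifs <;> positivity
        · exact le_rfl

theorem gw_sum {ι : Type*} (B : Finset ι) (J : ι → Set (List Bool))
    (hJ : ∀ i ∈ B, ∀ j ∈ B, i ≠ j → Disjoint (J i) (J j)) (g : Gate) (ψ : (Fin m → Bool) → ℝ) :
    ∑ i ∈ B, gw (J i) g ψ ≤ ∑ s, ψ s ^ 2 := by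
  classical
  have h0 : (0 : ℝ) ≤ ∑ s, ψ s ^ 2 := sum_nonneg fun s _ => by positivity
  rcases g with i | ⟨b, q, k⟩
  · simpa [gw] using h0
  · cases b with
    | false => simpa [gw] using h0
    | true =>
        simp only [gw]
        split_ifs with h
        · rw [sum_comm]
          refine sum_le_sum fun s _ => ?_
          by_cases hN : ∃ i ∈ B, ques q ⟨k, h⟩ s ∈ J i
          · obtain ⟨i, hi, hin⟩ := hN
            rw [sum_eq_single i]
            · simp [hin]
            · intro j hj hji
              rw [if_neg]
              intro h2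
              exact Set.disjoint_left.1 (hJ i hi j hj (Ne.symm hji)) hin h2
            · intro h2
              exact absurd hi h2
          · rw [sum_eq_zero]
            · positivity
            · intro i hi
              rw [if_neg]
              intro h2
              exact hN ⟨i, hi, h2⟩
        · simpa using h0

/-- the weight of the questions of a list of gates about the strings in `J` -/
noncomputable def mw (A : Oracle) (J : Set (List Bool)) :
    List Gate → ((Fin m → Bool) → ℝ) → ℝ
  | [], _ => 0
  | g :: l, ψ => gw J g ψ + mw A J l (gateAct A g ψ)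

theorem mw_nonneg (A : Oracle) (J : Set (List Bool)) (l : List Gate) (ψ : (Fin m → Bool) → ℝ) :
    0 ≤ mw A J l ψ := by
  induction l generalizing ψ with
  | nil => exact le_rfl
  | cons g l ih => exact add_nonneg (gw_nonneg J g ψ) (ih _)

theorem mw_sum {ι : Type*} (B : Finset ι) (J : ι → Set (List Bool))
    (hJ : ∀ i ∈ B, ∀ j ∈ B, i ≠ j → Disjoint (J i) (J j)) (A : Oracle) (l : List Gate)
    (ψ : (Fin m → Bool) → ℝ) :
    ∑ i ∈ B, mw A (J i) l ψ ≤ l.length * ∑ s, ψ s ^ 2 := by
  induction l generalizing ψ with
  | nil => simp [mw]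
  | cons g l ih =>
      simp only [mw, sum_add_distrib, List.length_cons]
      have h1 := gw_sum B J hJ g ψ
      have h2 := ih (gateAct A g ψ)
      rw [gateAct_norm] at h2
      push_cast
      linarith

/-- one gate, two oracles -/
theorem one_step' {A A' : Oracle} {J : Set (List Bool)} (hJ : ∀ x ∉ J, A' x = A x) (g : Gate)
    (ψ : (Fin m → Bool) → ℝ) :
    ∑ s, (gateAct A g ψ s - gateAct A' g ψ s) ^ 2 ≤ 4 * gw J g ψ := by
  classical
  have h0 := gw_nonneg J g ψ
  rcases g with i | ⟨b, q, k⟩
  · have : ∀ s, gateAct A (Sum.inl i) ψ s - gateAct A' (Sum.inl i) ψ s = 0 :=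
      fun s => sub_self _
    simp only [this]
    simpa using h0
  · cases b with
    | false =>
        have : ∀ s, gateAct A (Sum.inr (false, q, k)) ψ s -
            gateAct A' (Sum.inr (false, q, k)) ψ s = 0 := fun s => sub_self _
        simp only [this]
        simpa using h0
    | true =>
        by_cases h : k < m
        · set K : Fin m := ⟨k, h⟩ with hK
          let t : (Fin m → Bool) → (Fin m → Bool) := fun s => Function.update s K (!(s K))
          have ht : Function.Involutive t := by
            intro s
            simp [t]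
          have hq : ∀ s, ques q K (t s) = ques q K s := by
            intro s
            simp [t, ques]
          -- the difference at a basis state
          have hpt : ∀ s, (gateAct A (Sum.inr (true, q, k)) ψ s -
              gateAct A' (Sum.inr (true, q, k)) ψ s) ^ 2 ≤
              if A (ques q K s) = A' (ques q K s) then 0
              else 2 * ψ s ^ 2 + 2 * ψ (t s) ^ 2 := by
            intro s
            have e1 : ∀ A : Oracle, gateAct A (Sum.inr (true, q, k)) ψ s =
                ψ (Function.update s K (s K ^^ A (ques q K s))) := by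
              intro A
              simp only [gateAct, flipIf, dif_pos h]
              rfl
            rw [e1, e1]
            split_ifs with h1
            · rw [h1]
              simp
            · have h2 : Function.update s K (s K) = s := Function.update_eq_self K s
              rcases Bool.eq_false_or_eq_true (A (ques q K s)) with h3 | h3 <;>
                rcases Bool.eq_false_or_eq_true (A' (ques q K s)) with h4 | h4
              · exact absurd (h3.trans h4.symm) h1
              · rw [h3, h4, Bool.xor_true, Bool.xor_false, h2]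
                nlinarith [sq_nonneg (ψ s + ψ (t s))]
              · rw [h3, h4, Bool.xor_true, Bool.xor_false, h2]
                nlinarith [sq_nonneg (ψ s + ψ (t s))]
              · exact absurd (h3.trans h4.symm) h1
          have hre : ∑ s, (if A (ques q K s) = A' (ques q K s) then 0
              else ψ (t s) ^ 2) = ∑ s, (if A (ques q K s) = A' (ques q K s) then 0
              else ψ s ^ 2) := by
            rw [← Equiv.sum_comp (ht.toPerm t)]
            refine sum_congr rfl fun s _ => ?_
            simp only [Function.Involutive.coe_toPerm, hq, ht s]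
          have hle : ∑ s, (if A (ques q K s) = A' (ques q K s) then 0
              else ψ s ^ 2) ≤ gw J (Sum.inr (true, q, k)) ψ := by
            simp only [gw, dif_pos h]
            refine sum_le_sum fun s _ => ?_
            split_ifs with h1 h2 h2
            · positivity
            · exact le_rfl
            · exact le_rfl
            · exact absurd (hJ _ h2).symm h1
          calc ∑ s, (gateAct A (Sum.inr (true, q, k)) ψ s -
              gateAct A' (Sum.inr (true, q, k)) ψ s) ^ 2
              ≤ ∑ s, (if A (ques q K s) = A' (ques q K s) then 0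
              else 2 * ψ s ^ 2 + 2 * ψ (t s) ^ 2) := sum_le_sum fun s _ => hpt s
            _ = 2 * ∑ s, (if A (ques q K s) = A' (ques q K s) then 0
              else ψ s ^ 2) + 2 * ∑ s, (if A (ques q K s) = A' (ques q K s) then 0
              else ψ (t s) ^ 2) := by
                rw [mul_sum, mul_sum, ← sum_add_distrib]
                refine sum_congr rfl fun s _ => ?_
                split_ifs <;> simp
            _ = 4 * ∑ s, (if A (ques q K s) = A' (ques q K s) then 0
              else ψ s ^ 2) := by rw [hre]; ring
            _ ≤ 4 * gw J (Sum.inr (true, q, k)) ψ := by linarith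
        · have : ∀ s, gateAct A (Sum.inr (true, q, k)) ψ s -
              gateAct A' (Sum.inr (true, q, k)) ψ s = 0 := by
            intro s
            simp only [gateAct, flipIf, dif_neg h, sub_self]
          simp only [this]
          simpa using h0

/-- the hybrid argument -/
theorem hybrid' {A A' : Oracle} {J : Set (List Bool)} (hJ : ∀ x ∉ J, A' x = A x) (l : List Gate)
    (ψ φ : (Fin m → Bool) → ℝ) :
    nrm (fun s => circAct A l ψ s - circAct A' l φ s) ≤
      nrm (fun s => ψ s - φ s) + 2 * Real.sqrt (l.length * mw A J l ψ) := by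
  induction l generalizing ψ φ with
  | nil => simp [circAct]
  | cons g l ih =>
      have h1 := ih (gateAct A g ψ) (gateAct A' g φ)
      have h2 : nrm (fun s => gateAct A g ψ s - gateAct A' g φ s) ≤
          nrm (fun s => ψ s - φ s) + 2 * Real.sqrt (gw J g ψ) := by
        have h3 : (fun s => gateAct A g ψ s - gateAct A' g φ s) =
            fun s => (gateAct A' g (fun s => ψ s - φ s) s) +
              (gateAct A g ψ s - gateAct A' g ψ s) := by
          rw [gateAct_sub]
          funext s
          ring
        rw [h3]
        refine (nrm_add _ _).trans ?_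
        rw [nrm_gate]
        refine add_le_add le_rfl ?_
        have h4 := one_step' hJ g ψ
        unfold nrm
        refine (Real.sqrt_le_sqrt h4).trans (le_of_eq ?_)
        rw [show (4 : ℝ) = 2 ^ 2 by norm_num, Real.sqrt_mul (by norm_num),
          Real.sqrt_sq (by norm_num)]
      have h6 := sqrt_key (n := l.length) (Nat.cast_nonneg _)
        (gw_nonneg J g ψ) (mw_nonneg A J l (gateAct A g ψ))
      simp only [mw, List.length_cons]
      push_cast
      change nrm (fun s => circAct A l (gateAct A g ψ) s -
        circAct A' l (gateAct A' g φ) s) ≤ _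
      linarith

/-- the acceptance probability changes only if the circuit looks -/
theorem accW_sub {A A' : Oracle} {J : Set (List Bool)} (hJ : ∀ x ∉ J, A' x = A x)
    (c : List Unit × List Gate) {ψ : (Fin c.1.length → Bool) → ℝ} (hψ : ∑ s, ψ s ^ 2 = 1) :
    |accW A c ψ - accW A' c ψ| ≤ 4 * Real.sqrt (c.2.length * mw A J c.2 ψ) := by
  have hn : nrm ψ = 1 := by
    unfold nrm
    rw [hψ, Real.sqrt_one]
  have h1 := hybrid' hJ c.2 ψ ψ
  have h2 : nrm (fun s => ψ s - ψ s) = 0 := by
    unfold nrm
    simp
  rw [h2, zero_add] at h1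
  have h3 : nrm (fun s => circAct A c.2 ψ s + circAct A' c.2 ψ s) ≤ 2 := by
    refine (nrm_add _ _).trans ?_
    rw [nrm_circ, nrm_circ, hn]
    norm_num
  have h4 := acc_sub (circAct A c.2 ψ) (circAct A' c.2 ψ)
  refine h4.trans ?_
  have h5 := nrm_nonneg (fun s => circAct A c.2 ψ s - circAct A' c.2 ψ s)
  have h6 : (0 : ℝ) ≤ Real.sqrt (c.2.length * mw A J c.2 ψ) := Real.sqrt_nonneg _
  have h7 := mul_le_mul h1 h3 (nrm_nonneg _) (by positivity)
  refine h7.trans (le_of_eq ?_)
  ring

/-- few of the blocks matter -/
theorem sensQ (A : Oracle) (c : List Unit × List Gate) {ψ : (Fin c.1.length → Bool) → ℝ}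
    (hψ : ∑ s, ψ s ^ 2 = 1) {ι : Type*} (B F : Finset ι)
    (J : ι → Set (List Bool)) (hJ : ∀ i ∈ B, ∀ j ∈ B, i ≠ j → Disjoint (J i) (J j))
    (hFB : ∀ i ∈ F, i ∈ B ∧ ∃ A' : Oracle, (∀ x ∉ J i, A' x = A x) ∧
      1 / 3 ≤ |accW A c ψ - accW A' c ψ|) : F.card ≤ 144 * c.2.length ^ 2 := by
  obtain ⟨T, hT⟩ : ∃ T : ℝ, T = (c.2.length : ℝ) := ⟨_, rfl⟩
  have hT0 : 0 ≤ T := by rw [hT]; positivity
  have h1 : ∀ i ∈ F, 1 ≤ 144 * (T * mw A (J i) c.2 ψ) := by
    intro i hi
    obtain ⟨_, A', hA', hacc'⟩ := hFB i hi
    have h2 := accW_sub hA' c hψ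
    rw [← hT] at h2
    have h3 : 1 / 3 ≤ 4 * Real.sqrt (T * mw A (J i) c.2 ψ) := hacc'.trans h2
    have h5 := mw_nonneg A (J i) c.2 ψ
    have h6 := Real.sq_sqrt (mul_nonneg hT0 h5)
    have h7 := Real.sqrt_nonneg (T * mw A (J i) c.2 ψ)
    nlinarith
  have h2 : ∑ i ∈ F, mw A (J i) c.2 ψ ≤ T := by
    have h3 := mw_sum F J (fun i hi j hj => hJ i (hFB i hi).1 j (hFB j hj).1) A c.2 ψ
    rwa [hψ, mul_one, ← hT] at h3
  have h3 : (F.card : ℝ) ≤ 144 * T ^ 2 := by
    calc (F.card : ℝ) = ∑ _i ∈ F, (1 : ℝ) := by simp
      _ ≤ ∑ i ∈ F, 144 * (T * mw A (J i) c.2 ψ) := sum_le_sum h1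
      _ = 144 * T * ∑ i ∈ F, mw A (J i) c.2 ψ := by
        rw [mul_sum]
        refine sum_congr rfl fun i _ => ?_
        ring
      _ ≤ 144 * T * T := mul_le_mul_of_nonneg_left h2 (by positivity)
      _ = 144 * T ^ 2 := by ring
  rw [hT] at h3
  exact_mod_cast h3

/-- a bound for the lengths of the questions of a circuit -/
def qlen (l : List Gate) : ℕ := (l.map fun g => match g with
  | Sum.inl _ => 0
  | Sum.inr (_, q, _) => q.length).sum

theorem gateAct_congr {A A' : Oracle} {g : Gate} (h : ∀ x : List Bool, x.length ≤ qlen [g] →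
    A x = A' x) (ψ : (Fin m → Bool) → ℝ) : gateAct A g ψ = gateAct A' g ψ := by
  rcases g with i | ⟨b, q, k⟩
  · rfl
  · cases b with
    | false => rfl
    | true =>
      funext s
      simp only [gateAct]
      have e : (fun s : Fin m → Bool => A (q.map (rd s))) = fun s => A' (q.map (rd s)) := by
        funext s
        refine h _ ?_
        simp [qlen]
      rw [e]

theorem circAct_congr {A A' : Oracle} {l : List Gate} (h : ∀ x : List Bool, x.length ≤ qlen l →
    A x = A' x) (ψ : (Fin m → Bool) → ℝ) : circAct A l ψ = circAct A' l ψ := by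
  induction l generalizing ψ with
  | nil => rfl
  | cons g l ih =>
    simp only [circAct]
    have h1 : qlen (g :: l) = qlen [g] + qlen l := by simp [qlen]
    rw [gateAct_congr (A := A) (A' := A') (g := g) (fun x hx => h x (by omega)) ψ]
    exact ih (fun x hx => h x (by omega)) _

theorem accW_congr {A A' : Oracle} (c : List Unit × List Gate) (h : ∀ x : List Bool,
    x.length ≤ qlen c.2 → A x = A' x) (ψ : (Fin c.1.length → Bool) → ℝ) :
    accW A c ψ = accW A' c ψ := by
  unfold accW
  rw [circAct_congr h]

end Pool.Agent.H530R3.Qu
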