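import Pool.Agent.H530R3.Qu.Hyb
import Pool.Agent.H530R3.Qu.Gen
import Pool.Agent.H530R3.Thr.Final

/-!
# Quantum verifiers
-/

set_option autoImplicit false

namespace Pool.Agent.H530R3.Qu

open Pool.Agent.NPC MeasureTheory
open Pool.Agent.H628R3.RO (IsNP countable_polyTime)
open Pool.Agent.H628R3.RO.A2 (sz_eval_le)
open Pool.Agent.H620R2.Gauge hiding IsNP par code
open Pool.Agent.H530R3.Thr hiding InP inNP_of_inP

theorem disj_coe {B : Finset (List Bool)} {J : List Bool → Finset (List Bool)}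
    (h : ∀ w ∈ B, ∀ w' ∈ B, w ≠ w' → Disjoint (J w) (J w')) :
    ∀ w ∈ B, ∀ w' ∈ B, w ≠ w' →
      Disjoint ((J w : Finset (List Bool)) : Set (List Bool)) (J w' : Set (List Bool)) :=
  fun w hw w' hw' hne => Finset.disjoint_coe.2 (h w hw w' hw' hne)

/-- the quantum verifier -/
noncomputable def verQMA (C : List Bool → List Unit × (List Unit × List Gate)) : Ver where
  Hi A u := ∃ ψ, IsWit (C u).1.length ψ ∧ 2 / 3 ≤ accW A (C u).2 ψ
  Lo A u := ∃ ψ, IsWit (C u).1.length ψ ∧ 1 / 3 < accW A (C u).2 ψ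
  lb u := qlen (C u).2.2
  Qs u := 144 * (C u).2.2.length ^ 2
  locHi u A A' h := exists_congr fun ψ => by rw [accW_congr (C u).2 h ψ]
  locLo u A A' h := exists_congr fun ψ => by rw [accW_congr (C u).2 h ψ]
  sens u A hA B F J hJ hF := by
    obtain ⟨ψ, hψ, hacc⟩ := hA
    refine sensQ A (C u).2 hψ.1 B F (fun w => (J w : Set (List Bool))) (disj_coe hJ) fun w hw => ?_
    obtain ⟨h1, A', h2, h3⟩ := hF w hw
    refine ⟨h1, A', fun x hx => h2 x (by simpa using hx), ?_⟩
    push Not at h3
    have h4 := h3 ψ hψ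
    have h5 := le_abs_self (accW A (C u).2 ψ - accW A' (C u).2 ψ)
    linarith

theorem isWit_init (m : ℕ) : IsWit 0 (initSt m) := by
  constructor
  · unfold initSt
    rw [Finset.sum_eq_single (fun _ => false)]
    · simp
    · intro s _ hs
      rw [if_neg hs]
      simp
    · intro h
      exact absurd (Finset.mem_univ _) h
  · intro s hs i _
    unfold initSt at hs
    by_contra h
    rw [if_neg] at hs
    · exact hs rfl
    · intro h2
      rw [h2] at h
      simp at h

/-- the quantum algorithm, for the complement -/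
noncomputable def verBQP (C : List Bool → List Unit × List Gate) : Ver where
  Hi A u := accProb A (C u) ≤ 1 / 3
  Lo A u := accProb A (C u) < 2 / 3
  lb u := qlen (C u).2
  Qs u := 144 * (C u).2.length ^ 2
  locHi u A A' h := by
    change accW A (C u) (initSt _) ≤ _ ↔ accW A' (C u) (initSt _) ≤ _
    rw [accW_congr (C u) h]
  locLo u A A' h := by
    change accW A (C u) (initSt _) < _ ↔ accW A' (C u) (initSt _) < _
    rw [accW_congr (C u) h]
  sens u A hA B F J hJ hF := by
    refine sensQ A (C u) (isWit_init _).1 B F (fun w => (J w : Set (List Bool))) (disj_coe hJ)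
      fun w hw => ?_
    obtain ⟨h1, A', h2, h3⟩ := hF w hw
    refine ⟨h1, A', fun x hx => h2 x (by simpa using hx), ?_⟩
    rw [not_lt] at h3
    have h5 := neg_le_abs (accW A (C u) (initSt _) - accW A' (C u) (initSt _))
    have h6 : accW A (C u) (initSt _) ≤ 1 / 3 := hA
    have h7 : 2 / 3 ≤ accW A' (C u) (initSt _) := h3
    linarith

theorem bits_bound {β : Type} [TEnc β] {C : List Bool → β} (hC : PolyTime (fun x => bits (C x))) :
    ∃ r : Polynomial ℕ, ∀ x, sz (C x) ≤ r.eval x.length := by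
  obtain ⟨r, hr⟩ := (H622R2.poly_of_polyTime hC).sz_le
  refine ⟨r.comp (Polynomial.C 4 * Polynomial.X + Polynomial.C 1), fun x => ?_⟩
  have h1 : sz (C x) ≤ r.eval (sz x) := by
    have h2 := length_lt_sz (bits (C x))
    rw [bits_length] at h2
    exact h2.le.trans (hr x)
  exact sz_eval_le h1

theorem countable_circ (β : Type) [TEnc β] :
    Countable {C : List Bool → β // PolyTime (fun x => bits (C x))} := by
  have h1 : Countable {D : List Bool → List Bool | PolyTime D} := countable_polyTime.to_subtype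
  have hF : Function.Injective (fun C : {C : List Bool → β // PolyTime (fun x => bits (C x))} =>
      (⟨fun x => bits (C.1 x), C.2⟩ : {D : List Bool → List Bool | PolyTime D})) := by
    intro C C' h
    apply Subtype.ext
    funext x
    have h2 : (fun x => bits (C.1 x)) = fun x => bits (C'.1 x) := congrArg Subtype.val h
    exact bits_injective (congrFun h2 x)
  exact hF.countable

variable (p : ℕ → unitInterval)

theorem ae_not_isQMA (h : ¬ Summable (lam p)) :
    ∀ᵐ A ∂(biasedOracle p), ¬ IsQMA A (Lang A)ᶜ := by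
  have hc := countable_circ (List Unit × (List Unit × List Gate))
  have h1 : ∀ᵐ A ∂(biasedOracle p), ∀ C : {C : List Bool → List Unit × (List Unit × List Gate) //
      PolyTime (fun x => bits (C x))}, ¬ ∀ u, A ∈ (verQMA C.1).Good u := by
    rw [ae_all_iff]
    intro C
    rw [ae_iff]
    simp only [not_not]
    obtain ⟨r, hr⟩ := bits_bound C.2
    refine Ver.null p h (verQMA C.1) (144 * r ^ 2) fun u => ?_
    simp only [Polynomial.eval_mul, Polynomial.eval_pow, Polynomial.eval_ofNat]
    refine Nat.mul_le_mul_left _ (Nat.pow_le_pow_left ?_ 2)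
    refine le_trans ?_ (hr u)
    have h2 := length_lt_sz (C.1 u).2.2
    have h3 : sz (C.1 u) = sz (C.1 u).1 + (sz (C.1 u).2.1 + sz (C.1 u).2.2 + 1) + 1 := by
      rw [← sz_pair, ← sz_pair]
    omega
  filter_upwards [h1] with A hA
  rintro ⟨C, hC, hV⟩
  refine hA ⟨C, hC⟩ fun u => ⟨fun hu => (hV u).1 hu, fun hu => ?_⟩
  rintro ⟨ψ, hψ, h2⟩
  exact absurd ((hV u).2 (not_not.2 hu) ψ hψ) (not_le.2 h2)

theorem ae_not_isBQP (h : ¬ Summable (lam p)) :
    ∀ᵐ A ∂(biasedOracle p), ¬ IsBQP A (Lang A) := by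
  have hc := countable_circ (List Unit × List Gate)
  have h1 : ∀ᵐ A ∂(biasedOracle p), ∀ C : {C : List Bool → List Unit × List Gate //
      PolyTime (fun x => bits (C x))}, ¬ ∀ u, A ∈ (verBQP C.1).Good u := by
    rw [ae_all_iff]
    intro C
    rw [ae_iff]
    simp only [not_not]
    obtain ⟨r, hr⟩ := bits_bound C.2
    refine Ver.null p h (verBQP C.1) (144 * r ^ 2) fun u => ?_
    simp only [Polynomial.eval_mul, Polynomial.eval_pow, Polynomial.eval_ofNat]
    refine Nat.mul_le_mul_left _ (Nat.pow_le_pow_left ?_ 2)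
    refine le_trans ?_ (hr u)
    have h2 := length_lt_sz (C.1 u).2
    have h3 : sz (C.1 u) = sz (C.1 u).1 + sz (C.1 u).2 + 1 := by
      rw [← sz_pair]
    omega
  filter_upwards [h1] with A hA
  rintro ⟨C, hC, hV⟩
  exact hA ⟨C, hC⟩ fun u => ⟨fun hu => (hV u).2 hu, fun hu => not_lt.2 ((hV u).1 hu)⟩

theorem divergentQ (h : ¬ Summable (lam p)) :
    ∀ᵐ A ∂(biasedOracle p), ∃ L : Set (List Bool), IsNP A L ∧ ¬ IsBQP A L ∧ ¬ IsQMA A Lᶜ := by
  filter_upwards [ae_not_isQMA p h, ae_not_isBQP p h] with A hA hA'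
  exact ⟨Lang A, isNP_Lang A, hA', hA⟩

end Pool.Agent.H530R3.Qu
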